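import Mathlib
import Pool.Agent.Q46.Conc

/-! # A binary form with exactly two minimal representations over the rationals -/

namespace Pool.Agent.Results.MP_1ed635_nt.TwoMinimal

open MvPolynomial

/-- Binary forms live in `ℂ[x,y]`, with `x = X 0` and `y = X 1`. -/
abbrev P2 := MvPolynomial (Fin 2) ℂ

/-- The summand `l (a x + b y)^d` attached to a triple `(l, a, b)`. -/
noncomputable def summand (d : ℕ) (t : ℂ × ℂ × ℂ) : P2 :=
  C t.1 * (C t.2.1 * X 0 + C t.2.2 * X 1) ^ d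

/-- `E_f`: the subfield of `ℂ` generated by the coefficients of `f`. -/
noncomputable def coeffField (f : P2) : Subfield ℂ :=
  Subfield.closure (Set.range fun m => coeff m f)

/-- `c` is a `K`-representation of `f` (a form of degree `d`) of length `r`. -/
def IsRep (K : Subfield ℂ) (d : ℕ) (f : P2) (r : ℕ) (c : Fin r → ℂ × ℂ × ℂ) : Prop :=
  (∀ j, (c j).1 ∈ K ∧ (c j).2.1 ∈ K ∧ (c j).2.2 ∈ K) ∧ f = ∑ j, summand d (c j)

/-- The `K`-length of `f`. -/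
noncomputable def len (K : Subfield ℂ) (d : ℕ) (f : P2) : ℕ :=
  sInf {r | ∃ c : Fin r → ℂ × ℂ × ℂ, IsRep K d f r c}

/-- The set of different `K`-minimal representations of `f`: a representation is recorded by the
multiset of its summands, viewed as forms. -/
def minReps (K : Subfield ℂ) (d : ℕ) (f : P2) : Set (Multiset P2) :=
  {m | ∃ c : Fin (len K d f) → ℂ × ℂ × ℂ, IsRep K d f (len K d f) c ∧
    m = Multiset.map (fun j => summand d (c j)) Finset.univ.val}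

/-- The quartic form `x^4 + 54 x^2 y^2 + 9 y^4`. -/
noncomputable def f0 : P2 := X 0 ^ 4 + C 54 * (X 0 ^ 2 * X 1 ^ 2) + C 9 * X 1 ^ 4

/-- `-8 x^4`, `(9/2)(x+y)^4`, `(9/2)(x-y)^4`. -/
noncomputable def repA : Multiset P2 :=
  {C (-8) * X 0 ^ 4, C (9 / 2) * (X 0 + X 1) ^ 4, C (9 / 2) * (X 0 - X 1) ^ 4}

/-- `-72 y^4`, `(1/2)(x+3y)^4`, `(1/2)(x-3y)^4`. -/
noncomputable def repB : Multiset P2 :=
  {C (-72) * X 1 ^ 4, C (1 / 2) * (X 0 + C 3 * X 1) ^ 4, C (1 / 2) * (X 0 - C 3 * X 1) ^ 4}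

section rational

variable {l1 a1 b1 l2 a2 b2 l3 a3 b3 : ℚ}

/-- the rational identity -/
def Hyp (l1 a1 b1 l2 a2 b2 l3 a3 b3 : ℚ) : Prop := ∀ x y : ℚ,
  l1 * (a1 * x + b1 * y) ^ 4 + l2 * (a2 * x + b2 * y) ^ 4 + l3 * (a3 * x + b3 * y) ^ 4 =
    x ^ 4 + 54 * (x ^ 2 * y ^ 2) + 9 * y ^ 4

lemma moments (H : Hyp l1 a1 b1 l2 a2 b2 l3 a3 b3) :
    l1 * a1 ^ 4 + l2 * a2 ^ 4 + l3 * a3 ^ 4 = 1 ∧
    l1 * a1 ^ 3 * b1 + l2 * a2 ^ 3 * b2 + l3 * a3 ^ 3 * b3 = 0 ∧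
    l1 * a1 ^ 2 * b1 ^ 2 + l2 * a2 ^ 2 * b2 ^ 2 + l3 * a3 ^ 2 * b3 ^ 2 = 9 ∧
    l1 * a1 * b1 ^ 3 + l2 * a2 * b2 ^ 3 + l3 * a3 * b3 ^ 3 = 0 ∧
    l1 * b1 ^ 4 + l2 * b2 ^ 4 + l3 * b3 ^ 4 = 9 := by
  have h10 := H 1 0
  have h01 := H 0 1
  have h11 := H 1 1
  have h1m := H 1 (-1)
  have h12 := H 1 2
  have m0 : l1 * a1 ^ 4 + l2 * a2 ^ 4 + l3 * a3 ^ 4 = 1 := by linear_combination h10
  have m4 : l1 * b1 ^ 4 + l2 * b2 ^ 4 + l3 * b3 ^ 4 = 9 := by linear_combination h01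
  have m2 : l1 * a1 ^ 2 * b1 ^ 2 + l2 * a2 ^ 2 * b2 ^ 2 + l3 * a3 ^ 2 * b3 ^ 2 = 9 := by
    linear_combination (h11 + h1m) / 12 - (m0 + m4) / 6
  have m13 : (l1 * a1 ^ 3 * b1 + l2 * a2 ^ 3 * b2 + l3 * a3 ^ 3 * b3) +
    (l1 * a1 * b1 ^ 3 + l2 * a2 * b2 ^ 3 + l3 * a3 * b3 ^ 3) = 0 := by
    linear_combination (h11 - h1m) / 8
  have m3 : l1 * a1 * b1 ^ 3 + l2 * a2 * b2 ^ 3 + l3 * a3 * b3 ^ 3 = 0 := by
    linear_combination (h12 - m0 - 24 * m2 - 16 * m4 - 8 * m13) / 24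
  exact ⟨m0, by linear_combination m13 - m3, m2, m3, m4⟩

lemma det (H : Hyp l1 a1 b1 l2 a2 b2 l3 a3 b3) :
    l1 * l2 * l3 * ((a1 * b2 - a2 * b1) * (a1 * b3 - a3 * b1) * (a2 * b3 - a3 * b2)) ^ 2
      = -648 := by
  obtain ⟨m0, m1, m2, m3, m4⟩ := moments H
  calc _ = (l1 * a1 ^ 4 + l2 * a2 ^ 4 + l3 * a3 ^ 4) *
          ((l1 * a1 ^ 2 * b1 ^ 2 + l2 * a2 ^ 2 * b2 ^ 2 + l3 * a3 ^ 2 * b3 ^ 2) *
            (l1 * b1 ^ 4 + l2 * b2 ^ 4 + l3 * b3 ^ 4) -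
            (l1 * a1 * b1 ^ 3 + l2 * a2 * b2 ^ 3 + l3 * a3 * b3 ^ 3) ^ 2) -
          (l1 * a1 ^ 3 * b1 + l2 * a2 ^ 3 * b2 + l3 * a3 ^ 3 * b3) *
          ((l1 * a1 ^ 3 * b1 + l2 * a2 ^ 3 * b2 + l3 * a3 ^ 3 * b3) *
            (l1 * b1 ^ 4 + l2 * b2 ^ 4 + l3 * b3 ^ 4) -
            (l1 * a1 ^ 2 * b1 ^ 2 + l2 * a2 ^ 2 * b2 ^ 2 + l3 * a3 ^ 2 * b3 ^ 2) *
            (l1 * a1 * b1 ^ 3 + l2 * a2 * b2 ^ 3 + l3 * a3 * b3 ^ 3)) +
          (l1 * a1 ^ 2 * b1 ^ 2 + l2 * a2 ^ 2 * b2 ^ 2 + l3 * a3 ^ 2 * b3 ^ 2) *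
          ((l1 * a1 ^ 3 * b1 + l2 * a2 ^ 3 * b2 + l3 * a3 ^ 3 * b3) *
            (l1 * a1 * b1 ^ 3 + l2 * a2 * b2 ^ 3 + l3 * a3 * b3 ^ 3) -
            (l1 * a1 ^ 2 * b1 ^ 2 + l2 * a2 ^ 2 * b2 ^ 2 + l3 * a3 ^ 2 * b3 ^ 2) ^ 2) := by
        ring
    _ = -648 := by rw [m0, m1, m2, m3, m4]; norm_num

lemma cubic (H : Hyp l1 a1 b1 l2 a2 b2 l3 a3 b3) :
    b1 * b2 * b3 + 9 * (a1 * a2 * b3 + a1 * b2 * a3 + b1 * a2 * a3) = 0 ∧
    (a1 * b2 * b3 + b1 * a2 * b3 + b1 * b2 * a3) + a1 * a2 * a3 = 0 := by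
  obtain ⟨m0, m1, m2, m3, m4⟩ := moments H
  constructor
  · linear_combination -(b1 * b2 * b3) * m0 + (a1 * b2 * b3 + b1 * a2 * b3 + b1 * b2 * a3) * m1
      - (a1 * a2 * b3 + a1 * b2 * a3 + b1 * a2 * a3) * m2 + (a1 * a2 * a3) * m3
  · linear_combination (-(b1 * b2 * b3) * m1 + (a1 * b2 * b3 + b1 * a2 * b3 + b1 * b2 * a3) * m2
      - (a1 * a2 * b3 + a1 * b2 * a3 + b1 * a2 * a3) * m3 + (a1 * a2 * a3) * m4) / (-9)

lemma ne_zero (H : Hyp l1 a1 b1 l2 a2 b2 l3 a3 b3) :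
    l3 ≠ 0 ∧ a1 * b2 - a2 * b1 ≠ 0 ∧ a1 * b3 - a3 * b1 ≠ 0 ∧ a2 * b3 - a3 * b2 ≠ 0 := by
  have h := det H
  refine ⟨?_, ?_, ?_, ?_⟩ <;> intro h0 <;> rw [h0] at h <;> norm_num at h

/-- case `b1 = 0` -/
lemma caseB (H : Hyp l1 a1 b1 l2 a2 b2 l3 a3 b3) (hb : b1 = 0) :
    l1 * a1 ^ 4 = -8 ∧ l2 * b2 ^ 4 = 9 / 2 ∧ l3 * b3 ^ 4 = 9 / 2 ∧
      ((a2 = b2 ∧ a3 = -b3) ∨ (a2 = -b2 ∧ a3 = b3)) := by
  obtain ⟨m0, m1, m2, m3, m4⟩ := moments H
  obtain ⟨e1, e2⟩ := cubic H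
  obtain ⟨n0, n1, n2, n3⟩ := ne_zero H
  subst hb
  have ha1 : a1 ≠ 0 := by rintro rfl; simp at n1
  have hb2 : b2 ≠ 0 := by rintro rfl; simp at n1
  have hb3 : b3 ≠ 0 := by rintro rfl; simp at n2
  have g1 : a2 * b3 + b2 * a3 = 0 := by
    have : a1 * (a2 * b3 + b2 * a3) = 0 := by linear_combination e1 / 9
    exact (mul_eq_zero.mp this).resolve_left ha1
  have g2 : b2 * b3 + a2 * a3 = 0 := by
    have : a1 * (b2 * b3 + a2 * a3) = 0 := by linear_combination e2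
    exact (mul_eq_zero.mp this).resolve_left ha1
  have g3 : (a2 - b2) * (a2 + b2) = 0 := by
    have : b3 * ((a2 - b2) * (a2 + b2)) = 0 := by linear_combination a2 * g1 - b2 * g2
    exact (mul_eq_zero.mp this).resolve_left hb3
  have g4 : ((a2 = b2 ∧ a3 = -b3) ∨ (a2 = -b2 ∧ a3 = b3)) := by
    rcases mul_eq_zero.mp g3 with h | h
    · left
      have h' : a2 = b2 := by linarith
      refine ⟨h', ?_⟩
      have : b2 * (a3 + b3) = 0 := by rw [h'] at g1; linear_combination g1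
      have := (mul_eq_zero.mp this).resolve_left hb2
      linarith
    · right
      have h' : a2 = -b2 := by linarith
      refine ⟨h', ?_⟩
      have : b2 * (a3 - b3) = 0 := by rw [h'] at g1; linear_combination g1
      have := (mul_eq_zero.mp this).resolve_left hb2
      linarith
  rcases g4 with ⟨h, h'⟩ | ⟨h, h'⟩
  · subst h; subst h'
    have k1 : l2 * a2 ^ 4 = 9 / 2 := by linear_combination (m4 + m3) / 2
    have k2 : l3 * b3 ^ 4 = 9 / 2 := by linear_combination (m4 - m3) / 2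
    refine ⟨by linear_combination m0 - k1 - k2, k1, k2, Or.inl ⟨rfl, rfl⟩⟩
  · subst h; subst h'
    have k1 : l2 * b2 ^ 4 = 9 / 2 := by linear_combination (m4 - m3) / 2
    have k2 : l3 * a3 ^ 4 = 9 / 2 := by linear_combination (m4 + m3) / 2
    refine ⟨by linear_combination m0 - k1 - k2, k1, k2, Or.inr ⟨rfl, rfl⟩⟩

/-- case `a1 = 0` -/
lemma caseA (H : Hyp l1 a1 b1 l2 a2 b2 l3 a3 b3) (ha : a1 = 0) :
    l1 * b1 ^ 4 = -72 ∧ l2 * a2 ^ 4 = 1 / 2 ∧ l3 * a3 ^ 4 = 1 / 2 ∧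
      ((b2 = 3 * a2 ∧ b3 = -(3 * a3)) ∨ (b2 = -(3 * a2) ∧ b3 = 3 * a3)) := by
  obtain ⟨m0, m1, m2, m3, m4⟩ := moments H
  obtain ⟨e1, e2⟩ := cubic H
  obtain ⟨n0, n1, n2, n3⟩ := ne_zero H
  subst ha
  have hb1 : b1 ≠ 0 := by rintro rfl; simp at n1
  have ha2 : a2 ≠ 0 := by rintro rfl; simp at n1
  have ha3 : a3 ≠ 0 := by rintro rfl; simp at n2
  have g1 : a2 * b3 + b2 * a3 = 0 := by
    have : b1 * (a2 * b3 + b2 * a3) = 0 := by linear_combination e2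
    exact (mul_eq_zero.mp this).resolve_left hb1
  have g2 : b2 * b3 + 9 * (a2 * a3) = 0 := by
    have : b1 * (b2 * b3 + 9 * (a2 * a3)) = 0 := by linear_combination e1
    exact (mul_eq_zero.mp this).resolve_left hb1
  have g3 : (b2 - 3 * a2) * (b2 + 3 * a2) = 0 := by
    have : a3 * ((b2 - 3 * a2) * (b2 + 3 * a2)) = 0 := by linear_combination b2 * g1 - a2 * g2
    exact (mul_eq_zero.mp this).resolve_left ha3
  have g4 : ((b2 = 3 * a2 ∧ b3 = -(3 * a3)) ∨ (b2 = -(3 * a2) ∧ b3 = 3 * a3)) := by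
    rcases mul_eq_zero.mp g3 with h | h
    · left
      have h' : b2 = 3 * a2 := by linarith
      refine ⟨h', ?_⟩
      have : a2 * (b3 + 3 * a3) = 0 := by rw [h'] at g1; linear_combination g1
      have := (mul_eq_zero.mp this).resolve_left ha2
      linarith
    · right
      have h' : b2 = -(3 * a2) := by linarith
      refine ⟨h', ?_⟩
      have : a2 * (b3 - 3 * a3) = 0 := by rw [h'] at g1; linear_combination g1
      have := (mul_eq_zero.mp this).resolve_left ha2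
      linarith
  rcases g4 with ⟨h, h'⟩ | ⟨h, h'⟩
  · subst h; subst h'
    have k1 : l2 * a2 ^ 4 = 1 / 2 := by linear_combination (m0 + m1 / 3) / 2
    have k2 : l3 * a3 ^ 4 = 1 / 2 := by linear_combination (m0 - m1 / 3) / 2
    refine ⟨by linear_combination m4 - 81 * k1 - 81 * k2, k1, k2, Or.inl ⟨rfl, rfl⟩⟩
  · subst h; subst h'
    have k1 : l2 * a2 ^ 4 = 1 / 2 := by linear_combination (m0 - m1 / 3) / 2
    have k2 : l3 * a3 ^ 4 = 1 / 2 := by linear_combination (m0 + m1 / 3) / 2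
    refine ⟨by linear_combination m4 - 81 * k1 - 81 * k2, k1, k2, Or.inr ⟨rfl, rfl⟩⟩

/-- one of the six coordinates vanishes -/
lemma some_zero (H : Hyp l1 a1 b1 l2 a2 b2 l3 a3 b3) :
    a1 = 0 ∨ a2 = 0 ∨ a3 = 0 ∨ b1 = 0 ∨ b2 = 0 ∨ b3 = 0 := by
  by_contra hcon
  push Not at hcon
  obtain ⟨ha1, ha2, ha3, hb1, hb2, hb3⟩ := hcon
  obtain ⟨e1, e2⟩ := cubic H
  refine Q46.Conc.triple (3 * a1 / b1) (3 * a2 / b2) (3 * a3 / b3) ?_ ?_ ?_ ?_ ?_
  · exact div_ne_zero (mul_ne_zero three_ne_zero ha1) hb1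
  · exact div_ne_zero (mul_ne_zero three_ne_zero ha2) hb2
  · exact div_ne_zero (mul_ne_zero three_ne_zero ha3) hb3
  · field_simp
    linear_combination e1
  · field_simp
    linear_combination 9 * e2

end rational

lemma eval_f0 (v : Fin 2 → ℂ) :
    eval v f0 = v 0 ^ 4 + 54 * (v 0 ^ 2 * v 1 ^ 2) + 9 * v 1 ^ 4 := by
  simp [f0]

lemma eval_summand (d : ℕ) (t : ℂ × ℂ × ℂ) (v : Fin 2 → ℂ) :
    eval v (summand d t) = t.1 * (t.2.1 * v 0 + t.2.2 * v 1) ^ d := by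
  simp [summand]

lemma mem_bot {z : ℂ} (h : z ∈ (⊥ : Subfield ℂ)) : ∃ q : ℚ, (q : ℂ) = z := by
  rw [Subfield.bot_eq_of_charZero] at h
  obtain ⟨q, hq⟩ := h
  exact ⟨q, by rw [← hq]; simp⟩

lemma rat_mem_bot (q : ℚ) : (q : ℂ) ∈ (⊥ : Subfield ℂ) := by
  rw [Subfield.bot_eq_of_charZero]
  exact ⟨q, by simp⟩

/-- a representation over the rationals gives rational data and identities -/
lemma rep_rat {r : ℕ} {c : Fin r → ℂ × ℂ × ℂ} (h : IsRep ⊥ 4 f0 r c) :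
    ∃ l a b : Fin r → ℚ, (∀ j, c j = ((l j : ℂ), (a j : ℂ), (b j : ℂ))) ∧
      ∀ x y : ℚ, ∑ j, l j * (a j * x + b j * y) ^ 4 =
        x ^ 4 + 54 * (x ^ 2 * y ^ 2) + 9 * y ^ 4 := by
  obtain ⟨h1, h2⟩ := h
  choose l hl using fun j => mem_bot (h1 j).1
  choose a ha using fun j => mem_bot (h1 j).2.1
  choose b hb using fun j => mem_bot (h1 j).2.2
  refine ⟨l, a, b, fun j => ?_, fun x y => ?_⟩
  · rw [hl, ha, hb]
  · have := congrArg (eval ![(x : ℂ), (y : ℂ)]) h2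
    rw [eval_f0, map_sum] at this
    simp only [eval_summand, Matrix.cons_val_zero, Matrix.cons_val_one, ← hl, ← ha, ← hb] at this
    have h3 : ((∑ j, l j * (a j * x + b j * y) ^ 4 : ℚ) : ℂ) =
        ((x ^ 4 + 54 * (x ^ 2 * y ^ 2) + 9 * y ^ 4 : ℚ) : ℂ) := by
      push_cast
      exact this.symm
    exact_mod_cast h3

/-- no representation of length at most two -/
lemma three_le {r : ℕ} {c : Fin r → ℂ × ℂ × ℂ} (h : IsRep ⊥ 4 f0 r c) : 3 ≤ r := by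
  obtain ⟨l, a, b, -, hH⟩ := rep_rat h
  by_contra hlt
  push Not at hlt
  interval_cases r
  · have := hH 1 0
    simp at this
  · have H : Hyp (l 0) (a 0) (b 0) 0 0 0 0 0 0 := by
      intro x y
      have := hH x y
      simp only [Finset.univ_unique, Finset.sum_singleton] at this
      rw [← this]
      simp
    exact (ne_zero H).1 rfl
  · have H : Hyp (l 0) (a 0) (b 0) (l 1) (a 1) (b 1) 0 0 0 := by
      intro x y
      have := hH x y
      rw [Fin.sum_univ_two] at this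
      rw [← this]
      ring
    exact (ne_zero H).1 rfl

lemma repA_is : IsRep ⊥ 4 f0 3 ![(-8, 1, 0), (9 / 2, 1, 1), (9 / 2, 1, -1)] := by
  constructor
  · intro j
    have m1 : ((-8 : ℂ)) ∈ (⊥ : Subfield ℂ) := by exact_mod_cast rat_mem_bot (-8)
    have m2 : ((9 / 2 : ℂ)) ∈ (⊥ : Subfield ℂ) := by
      have := rat_mem_bot (9 / 2)
      push_cast at this
      exact this
    have m3 : ((-1 : ℂ)) ∈ (⊥ : Subfield ℂ) := by exact_mod_cast rat_mem_bot (-1)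
    have m4 : ((1 : ℂ)) ∈ (⊥ : Subfield ℂ) := one_mem _
    have m5 : ((0 : ℂ)) ∈ (⊥ : Subfield ℂ) := zero_mem _
    match j with
    | 0 => exact ⟨m1, m4, m5⟩
    | 1 => exact ⟨m2, m4, m4⟩
    | 2 => exact ⟨m2, m4, m3⟩
  · apply MvPolynomial.funext
    intro v
    rw [eval_f0, map_sum, Fin.sum_univ_three]
    simp only [eval_summand]
    simp
    ring

lemma repB_is : IsRep ⊥ 4 f0 3 ![(-72, 0, 1), (1 / 2, 1, 3), (1 / 2, 1, -3)] := by
  constructor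
  · intro j
    have m1 : ((-72 : ℂ)) ∈ (⊥ : Subfield ℂ) := by exact_mod_cast rat_mem_bot (-72)
    have m2 : ((1 / 2 : ℂ)) ∈ (⊥ : Subfield ℂ) := by
      have := rat_mem_bot (1 / 2)
      push_cast at this
      exact this
    have m3 : ((-3 : ℂ)) ∈ (⊥ : Subfield ℂ) := by exact_mod_cast rat_mem_bot (-3)
    have m6 : ((3 : ℂ)) ∈ (⊥ : Subfield ℂ) := by exact_mod_cast rat_mem_bot 3
    have m4 : ((1 : ℂ)) ∈ (⊥ : Subfield ℂ) := one_mem _
    have m5 : ((0 : ℂ)) ∈ (⊥ : Subfield ℂ) := zero_mem _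
    match j with
    | 0 => exact ⟨m1, m5, m4⟩
    | 1 => exact ⟨m2, m4, m6⟩
    | 2 => exact ⟨m2, m4, m3⟩
  · apply MvPolynomial.funext
    intro v
    rw [eval_f0, map_sum, Fin.sum_univ_three]
    simp only [eval_summand]
    simp
    ring

lemma len_f0 : len ⊥ 4 f0 = 3 := by
  unfold len
  apply le_antisymm
  · exact Nat.sInf_le ⟨_, repA_is⟩
  · have hne : {r | ∃ c : Fin r → ℂ × ℂ × ℂ, IsRep ⊥ 4 f0 r c}.Nonempty := ⟨3, _, repA_is⟩
    apply le_csInf hne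
    rintro r ⟨c, hc⟩
    exact three_le hc

lemma sA1 {l a : ℚ} (h : l * a ^ 4 = -8) :
    summand 4 ((l : ℂ), (a : ℂ), ((0 : ℚ) : ℂ)) = C (-8) * X 0 ^ 4 := by
  have h' : (l : ℂ) * (a : ℂ) ^ 4 = -8 := by exact_mod_cast congrArg (fun q : ℚ => (q : ℂ)) h
  apply MvPolynomial.funext
  intro v
  rw [eval_summand]
  simp
  linear_combination (v 0) ^ 4 * h'

lemma sB1 {l a : ℚ} (h : l * a ^ 4 = -72) :
    summand 4 ((l : ℂ), ((0 : ℚ) : ℂ), (a : ℂ)) = C (-72) * X 1 ^ 4 := by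
  have h' : (l : ℂ) * (a : ℂ) ^ 4 = -72 := by exact_mod_cast congrArg (fun q : ℚ => (q : ℂ)) h
  apply MvPolynomial.funext
  intro v
  rw [eval_summand]
  simp
  linear_combination (v 1) ^ 4 * h'

lemma sA2 {l a b : ℚ} (h : l * b ^ 4 = 9 / 2) (hab : a = b) :
    summand 4 ((l : ℂ), (a : ℂ), (b : ℂ)) = C (9 / 2) * (X 0 + X 1) ^ 4 := by
  subst hab
  have h' : (l : ℂ) * (a : ℂ) ^ 4 = 9 / 2 := by
    have := congrArg (fun q : ℚ => (q : ℂ)) h
    push_cast at this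
    exact this
  apply MvPolynomial.funext
  intro v
  rw [eval_summand]
  simp
  linear_combination (v 0 + v 1) ^ 4 * h'

lemma sA3 {l a b : ℚ} (h : l * b ^ 4 = 9 / 2) (hab : a = -b) :
    summand 4 ((l : ℂ), (a : ℂ), (b : ℂ)) = C (9 / 2) * (X 0 - X 1) ^ 4 := by
  subst hab
  have h' : (l : ℂ) * (b : ℂ) ^ 4 = 9 / 2 := by
    have := congrArg (fun q : ℚ => (q : ℂ)) h
    push_cast at this
    exact this
  apply MvPolynomial.funext
  intro v
  rw [eval_summand]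
  simp
  linear_combination (v 0 - v 1) ^ 4 * h'

lemma sB2 {l a b : ℚ} (h : l * a ^ 4 = 1 / 2) (hab : b = 3 * a) :
    summand 4 ((l : ℂ), (a : ℂ), (b : ℂ)) = C (1 / 2) * (X 0 + C 3 * X 1) ^ 4 := by
  subst hab
  have h' : (l : ℂ) * (a : ℂ) ^ 4 = 1 / 2 := by
    have := congrArg (fun q : ℚ => (q : ℂ)) h
    push_cast at this
    exact this
  apply MvPolynomial.funext
  intro v
  rw [eval_summand]
  simp
  linear_combination (v 0 + 3 * v 1) ^ 4 * h'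

lemma sB3 {l a b : ℚ} (h : l * a ^ 4 = 1 / 2) (hab : b = -(3 * a)) :
    summand 4 ((l : ℂ), (a : ℂ), (b : ℂ)) = C (1 / 2) * (X 0 - C 3 * X 1) ^ 4 := by
  subst hab
  have h' : (l : ℂ) * (a : ℂ) ^ 4 = 1 / 2 := by
    have := congrArg (fun q : ℚ => (q : ℂ)) h
    push_cast at this
    exact this
  apply MvPolynomial.funext
  intro v
  rw [eval_summand]
  simp
  linear_combination (v 0 - 3 * v 1) ^ 4 * h'

lemma msB {l1 a1 b1 l2 a2 b2 l3 a3 b3 : ℚ} (H : Hyp l1 a1 b1 l2 a2 b2 l3 a3 b3)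
    (hb : b1 = 0) :
    ({summand 4 ((l1 : ℂ), (a1 : ℂ), (b1 : ℂ)), summand 4 ((l2 : ℂ), (a2 : ℂ), (b2 : ℂ)),
      summand 4 ((l3 : ℂ), (a3 : ℂ), (b3 : ℂ))} : Multiset P2) = repA := by
  obtain ⟨k1, k2, k3, k4⟩ := caseB H hb
  subst hb
  rw [sA1 k1]
  rcases k4 with ⟨h, h'⟩ | ⟨h, h'⟩
  · rw [sA2 k2 h, sA3 k3 h']; rfl
  · rw [sA3 k2 h, sA2 k3 h']
    unfold repA
    rw [Multiset.pair_comm (C (9 / 2) * (X 0 - X 1) ^ 4) (C (9 / 2) * (X 0 + X 1) ^ 4)]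

lemma msA {l1 a1 b1 l2 a2 b2 l3 a3 b3 : ℚ} (H : Hyp l1 a1 b1 l2 a2 b2 l3 a3 b3)
    (ha : a1 = 0) :
    ({summand 4 ((l1 : ℂ), (a1 : ℂ), (b1 : ℂ)), summand 4 ((l2 : ℂ), (a2 : ℂ), (b2 : ℂ)),
      summand 4 ((l3 : ℂ), (a3 : ℂ), (b3 : ℂ))} : Multiset P2) = repB := by
  obtain ⟨k1, k2, k3, k4⟩ := caseA H ha
  subst ha
  rw [sB1 k1]
  rcases k4 with ⟨h, h'⟩ | ⟨h, h'⟩
  · rw [sB2 k2 h, sB3 k3 h']; rfl
  · rw [sB3 k2 h, sB2 k3 h']
    unfold repB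
    rw [Multiset.pair_comm (C (1 / 2) * (X 0 - C 3 * X 1) ^ 4)
      (C (1 / 2) * (X 0 + C 3 * X 1) ^ 4)]

lemma ms_swap (s t u : P2) : ({s, t, u} : Multiset P2) = {t, s, u} :=
  Multiset.cons_swap _ _ _

lemma ms_rot (s t u : P2) : ({s, t, u} : Multiset P2) = {u, s, t} := by
  rw [ms_swap u s t]
  show s ::ₘ ({t, u} : Multiset P2) = s ::ₘ ({u, t} : Multiset P2)
  rw [Multiset.pair_comm]

lemma minReps_f0 : minReps ⊥ 4 f0 = {repA, repB} := by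
  unfold minReps
  rw [len_f0]
  ext m
  constructor
  · rintro ⟨c, hc, rfl⟩
    obtain ⟨l, a, b, hcj, hH⟩ := rep_rat hc
    have H : Hyp (l 0) (a 0) (b 0) (l 1) (a 1) (b 1) (l 2) (a 2) (b 2) := by
      intro x y
      have := hH x y
      rw [Fin.sum_univ_three] at this
      exact this
    have H1 : Hyp (l 1) (a 1) (b 1) (l 0) (a 0) (b 0) (l 2) (a 2) (b 2) := by
      intro x y
      linear_combination H x y
    have H2 : Hyp (l 2) (a 2) (b 2) (l 0) (a 0) (b 0) (l 1) (a 1) (b 1) := by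
      intro x y
      linear_combination H x y
    have hm : Multiset.map (fun j => summand 4 (c j)) Finset.univ.val =
        ({summand 4 (c 0), summand 4 (c 1), summand 4 (c 2)} : Multiset P2) := rfl
    rw [hm, hcj 0, hcj 1, hcj 2]
    simp only [Set.mem_insert_iff, Set.mem_singleton_iff]
    rcases some_zero H with h | h | h | h | h | h
    · right; exact msA H h
    · right; rw [ms_swap]; exact msA H1 h
    · right; rw [ms_rot]; exact msA H2 h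
    · left; exact msB H h
    · left; rw [ms_swap]; exact msB H1 h
    · left; rw [ms_rot]; exact msB H2 h
  · rintro (rfl | rfl)
    · refine ⟨_, repA_is, ?_⟩
      have hm : Multiset.map (fun j => summand 4
          ((![(-8, 1, 0), (9 / 2, 1, 1), (9 / 2, 1, -1)] : Fin 3 → ℂ × ℂ × ℂ) j))
          Finset.univ.val = ({summand 4 (-8, 1, 0), summand 4 (9 / 2, 1, 1),
          summand 4 (9 / 2, 1, -1)} : Multiset P2) := rfl
      rw [hm]
      unfold repA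
      have e1 : summand 4 (-8, 1, 0) = C (-8) * X 0 ^ 4 := by simp [summand]
      have e2 : summand 4 (9 / 2, 1, 1) = C (9 / 2) * (X 0 + X 1) ^ 4 := by simp [summand]
      have e3 : summand 4 (9 / 2, 1, -1) = C (9 / 2) * (X 0 - X 1) ^ 4 := by
        simp [summand, sub_eq_add_neg]
      rw [e1, e2, e3]
    · refine ⟨_, repB_is, ?_⟩
      have hm : Multiset.map (fun j => summand 4
          ((![(-72, 0, 1), (1 / 2, 1, 3), (1 / 2, 1, -3)] : Fin 3 → ℂ × ℂ × ℂ) j))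
          Finset.univ.val = ({summand 4 (-72, 0, 1), summand 4 (1 / 2, 1, 3),
          summand 4 (1 / 2, 1, -3)} : Multiset P2) := rfl
      rw [hm]
      unfold repB
      have e1 : summand 4 (-72, 0, 1) = C (-72) * X 1 ^ 4 := by simp [summand]
      have e2 : summand 4 (1 / 2, 1, 3) = C (1 / 2) * (X 0 + C 3 * X 1) ^ 4 := by
        simp [summand]
      have e3 : summand 4 (1 / 2, 1, -3) = C (1 / 2) * (X 0 - C 3 * X 1) ^ 4 := by
        simp [summand, sub_eq_add_neg]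
      rw [e1, e2, e3]

lemma repA_ne_repB : repA ≠ repB := by
  intro h
  have h1 : C (-8) * X 0 ^ 4 ∈ repA := by simp [repA]
  rw [h] at h1
  simp only [repB, Multiset.insert_eq_cons, Multiset.mem_cons, Multiset.mem_singleton] at h1
  rcases h1 with h1 | h1 | h1
  · have := congrArg (eval ![(1 : ℂ), 0]) h1
    simp at this
  · have := congrArg (eval ![(1 : ℂ), 0]) h1
    simp at this
    norm_num at this
  · have := congrArg (eval ![(1 : ℂ), 0]) h1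
    simp at this
    norm_num at this

lemma f0_hom : f0.IsHomogeneous 4 := by
  unfold f0
  refine ((isHomogeneous_X_pow 0 4).add ?_).add ?_
  · have := (isHomogeneous_C (Fin 2) (54 : ℂ)).mul
      ((isHomogeneous_X_pow (R := ℂ) (0 : Fin 2) 2).mul (isHomogeneous_X_pow (1 : Fin 2) 2))
    simpa using this
  · have := (isHomogeneous_C (Fin 2) (9 : ℂ)).mul (isHomogeneous_X_pow (R := ℂ) (1 : Fin 2) 4)
    simpa using this

lemma coeffField_f0 : coeffField f0 = ⊥ := by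
  apply le_antisymm _ bot_le
  unfold coeffField
  rw [Subfield.closure_le]
  rintro _ ⟨m, rfl⟩
  have e : f0 = map (algebraMap ℚ ℂ)
      (X 0 ^ 4 + C 54 * (X 0 ^ 2 * X 1 ^ 2) + C 9 * X 1 ^ 4 : MvPolynomial (Fin 2) ℚ) := by
    simp [f0]
  show coeff m f0 ∈ (⊥ : Subfield ℂ)
  rw [e, coeff_map]
  exact rat_mem_bot _

/-- The form `f0 = x^4 + 54 x^2 y^2 + 9 y^4` has rational coefficients, its length over `ℚ`
(the prime subfield `⊥` of `ℂ`) is `3`, and it has exactly two different `ℚ`-minimal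
representations. In particular there are a binary form of degree at least `3` and an admissible
field with more than one, but only finitely many, different minimal representations. -/
theorem result :
    (f0.IsHomogeneous 4 ∧ coeffField f0 = ⊥ ∧ len ⊥ 4 f0 = 3 ∧
      minReps ⊥ 4 f0 = {repA, repB} ∧ repA ≠ repB) ∧
    ∃ (d : ℕ) (f : P2) (K : Subfield ℂ), 3 ≤ d ∧ f.IsHomogeneous d ∧ coeffField f ≤ K ∧
      (minReps K d f).Finite ∧ 1 < (minReps K d f).ncard := by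
  refine ⟨⟨f0_hom, coeffField_f0, len_f0, minReps_f0, repA_ne_repB⟩,
    4, f0, ⊥, by norm_num, f0_hom, coeffField_f0.le, ?_, ?_⟩
  · rw [minReps_f0]
    exact Set.toFinite _
  · rw [minReps_f0, Set.ncard_pair repA_ne_repB]
    norm_num

end Pool.Agent.Results.MP_1ed635_nt.TwoMinimal
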